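import Pool.Agent.S7.V.Defs
import Pool.Agent.S7K.K1

/-!
# S7, block P (helper36): finite sums in Parseval's formula, from the library `S7K`
-/

set_option autoImplicit false

namespace Pool.Agent.S7

open MeasureTheory Filter Topology
open scoped ENNReal

section par

variable {K : Type*} [CommGroup K] [TopologicalSpace K] [IsTopologicalGroup K] [CompactSpace K]
  [T2Space K] [SecondCountableTopology K] [MeasurableSpace K] [BorelSpace K]
  {u : K} {m : Measure K} [IsProbabilityMeasure m] [m.IsHaarMeasure]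

/-- finite sums in Parseval's formula -/
theorem parseval_lb (hK : KD K u) {H : Type*} [NormedAddCommGroup H] [InnerProductSpace ℂ H]
    [CompleteSpace H] {F : K → H} (hF : StronglyMeasurable F) {C : ℝ} (hC : ∀ y, ‖F y‖ ≤ C)
    {ε : ℝ} (hε : 0 < ε) :
    ∃ s : Finset (PontryaginDual K), ∀ s' : Finset (PontryaginDual K), s ⊆ s' →
      ∫ y, ‖F y‖ ^ 2 ∂m - ε ≤ ∑ χ ∈ s', ‖∫ y, ((χ y : Circle) : ℂ) • F y ∂m‖ ^ 2 := by
  have h1 : MemLp F 2 m := MemLp.of_bound hF.aestronglyMeasurable C (Eventually.of_forall hC)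
  have h2 := S7K.parseval m hK.sep h1
  have h3 := (Equiv.inv (PontryaginDual K)).hasSum_iff.2 h2
  have h4 : ∀ χ : PontryaginDual K, ∀ y, (starRingEnd ℂ) (S7K.ch (χ⁻¹) y) = ((χ y : Circle) : ℂ) := by
    intro χ y
    have h5 : (χ⁻¹) y = (χ y)⁻¹ := rfl
    unfold S7K.ch
    rw [h5, Circle.coe_inv, Complex.inv_def, Circle.normSq_coe]
    simp
  have h6 : HasSum (fun χ : PontryaginDual K => ‖∫ y, ((χ y : Circle) : ℂ) • F y ∂m‖ ^ 2)
      (∫ y, ‖F y‖ ^ 2 ∂m) := by
    refine Eq.mp (congrArg (fun f => HasSum f (∫ y, ‖F y‖ ^ 2 ∂m)) ?_) h3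
    funext χ
    simp only [Function.comp_apply, Equiv.inv_apply, h4]
  have h7 := h6.eventually (lt_mem_nhds (show ∫ y, ‖F y‖ ^ 2 ∂m - ε < ∫ y, ‖F y‖ ^ 2 ∂m by linarith))
  obtain ⟨s, hs⟩ := eventually_atTop.1 h7
  exact ⟨s, fun s' h => (hs s' h).le⟩

end par

end Pool.Agent.S7
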