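import Pool.Agent.S7.V.Defs
import Pool.Agent.S7.Cbr
import Pool.Agent.S7.P.Par

/-!
# S7, block P, second part (helper36): the relation and the pigeonhole
-/

set_option autoImplicit false

namespace Pool.Agent.S7

open MeasureTheory Filter Topology
open scoped ENNReal

section par

variable {K : Type*} [CommGroup K] [TopologicalSpace K] [IsTopologicalGroup K] [CompactSpace K]
  [T2Space K] [SecondCountableTopology K] [MeasurableSpace K] [BorelSpace K]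
  {u : K} {m : Measure K} [IsProbabilityMeasure m] [m.IsHaarMeasure]

-- BEGIN pb1
open Classical in
/-- characters are orthonormal (`chr_int` for `χ⁻¹ * χ'`) -/
theorem chr_orth (χ χ' : PontryaginDual K) :
    ∫ y, (starRingEnd ℂ) ((χ y : Circle) : ℂ) * ((χ' y : Circle) : ℂ) ∂m =
      if χ = χ' then 1 else 0 := by
  have h1 : ∀ y : K, (starRingEnd ℂ) ((χ y : Circle) : ℂ) * ((χ' y : Circle) : ℂ)
      = (((χ⁻¹ * χ') y : Circle) : ℂ) := by
    intro y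
    have h2 : (χ⁻¹ * χ') y = (χ y)⁻¹ * χ' y := rfl
    rw [h2, Circle.coe_mul, Circle.coe_inv_eq_conj]
  simp_rw [h1]
  split_ifs with h
  · subst h
    have h3 : ∀ y : K, (((χ⁻¹ * χ) y : Circle) : ℂ) = 1 := by
      intro y
      have h4 : (χ⁻¹ * χ) y = (χ y)⁻¹ * χ y := rfl
      rw [h4, inv_mul_cancel, Circle.coe_one]
    simp_rw [h3]
    simp
  · exact chr_int _ fun h5 => h (by
      rw [inv_mul_eq_one] at h5
      exact h5)
-- END pb1

end par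

section main

variable {K : Type*} [CommGroup K] [TopologicalSpace K] [IsTopologicalGroup K] [CompactSpace K]
  [T2Space K] [SecondCountableTopology K] [MeasurableSpace K] [BorelSpace K]
  {u : K} {m : Measure K} [IsProbabilityMeasure m] [m.IsHaarMeasure]
  {Z : Type*} [MeasurableSpace Z] [StandardBorelSpace Z] {M : Measure Z} {S : Z ≃ᵐ Z}
  {y : Z → K} {s l : Z → ℝ}
  {E : Type*} [NormedAddCommGroup E] [InnerProductSpace ℂ E] [FiniteDimensional ℂ E]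
  [MeasurableSpace E] [BorelSpace E]

-- BEGIN pb2
omit [CommGroup K] [TopologicalSpace K] [IsTopologicalGroup K] [CompactSpace K] [T2Space K]
  [SecondCountableTopology K] [BorelSpace K] in
private theorem pb2_pre {X : Type*} {f : K → X} (hf : FM f) {φ : K → K} (hφ : Measurable φ) :
    FM fun y => f (φ y) :=
  ⟨hf.1.subset (by rintro x ⟨y, rfl⟩; exact ⟨φ y, rfl⟩), fun x => hφ (hf.2 x)⟩

omit [CommGroup K] [TopologicalSpace K] [IsTopologicalGroup K] [CompactSpace K] [T2Space K]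
  [SecondCountableTopology K] [BorelSpace K] in
private theorem pb2_two {X Y W : Type*} {f : K → X} {g : K → Y} (hf : FM f) (hg : FM g)
    (F : X → Y → W) : FM fun y => F (f y) (g y) := by
  refine ⟨(hf.1.image2 F hg.1).subset ?_, fun x => ?_⟩
  · rintro x ⟨y, rfl⟩
    exact ⟨f y, ⟨y, rfl⟩, g y, ⟨y, rfl⟩, rfl⟩
  · have h1 : (fun y => F (f y) (g y)) ⁻¹' {x} =
        ⋃ p ∈ (Set.range f ×ˢ Set.range g) ∩ (fun p : X × Y => F p.1 p.2) ⁻¹' {x},
          f ⁻¹' {p.1} ∩ g ⁻¹' {p.2} := by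
      ext y
      simp only [Set.mem_preimage, Set.mem_singleton_iff, Set.mem_iUnion, Set.mem_inter_iff,
        Set.mem_prod, Set.mem_range, exists_prop]
      exact ⟨fun h => ⟨(f y, g y), ⟨⟨⟨y, rfl⟩, ⟨y, rfl⟩⟩, h⟩, rfl, rfl⟩,
        fun ⟨p, ⟨_, h⟩, h2, h3⟩ => by rw [h2, h3]; exact h⟩
    rw [h1]
    exact ((hf.1.prod hg.1).subset Set.inter_subset_left).measurableSet_biUnion
      fun p _ => (hf.2 p.1).inter (hg.2 p.2)

omit [CompactSpace K] [T2Space K] in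
private theorem pb2_itc {g : K → (E ≃ₗᵢ[ℂ] E)} (hg : FM g) (h : ℕ) : FM (itc u g h) := by
  induction h with
  | zero =>
    refine ⟨(Set.finite_singleton (1 : E ≃ₗᵢ[ℂ] E)).subset ?_, fun x => ?_⟩
    · rintro x ⟨y, rfl⟩
      rfl
    · exact MeasurableSet.const ((1 : E ≃ₗᵢ[ℂ] E) = x)
  | succ h ih =>
    exact pb2_two (pb2_pre hg (measurable_const_mul (u ^ h))) ih fun a b => a * b

omit [CompactSpace K] [T2Space K] in
private theorem pb2_Dq {g : K → (E ≃ₗᵢ[ℂ] E)} (hg : FM g) (q : ℕ) : FM (Dq u g q) :=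
  pb2_pre (pb2_itc hg q) (continuous_pow q).measurable

omit [CommGroup K] [TopologicalSpace K] [IsTopologicalGroup K] [CompactSpace K] [T2Space K]
  [SecondCountableTopology K] [BorelSpace K] in
private theorem pb2_bmf {f : K → (E ≃ₗᵢ[ℂ] E)} (hf : FM f) {b : K → E} (hb : BMf b) :
    BMf fun y => f y (b y) := by
  refine ⟨fun A hA => ?_, ?_⟩
  · have h1 : (fun y => f y (b y)) ⁻¹' A =
        ⋃ v ∈ Set.range f, f ⁻¹' {v} ∩ (fun y => v (b y)) ⁻¹' A := by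
      ext y
      simp only [Set.mem_preimage, Set.mem_iUnion, Set.mem_inter_iff, Set.mem_singleton_iff,
        Set.mem_range, exists_prop]
      exact ⟨fun h => ⟨f y, ⟨y, rfl⟩, rfl, h⟩, fun ⟨v, _, h, h'⟩ => by rw [h]; exact h'⟩
    rw [h1]
    exact hf.1.measurableSet_biUnion fun v _ =>
      (hf.2 v).inter ((v.continuous.measurable.comp hb.meas) hA)
  · obtain ⟨C, hC⟩ := hb.bdd
    refine ⟨C, fun y => ?_⟩
    rw [LinearIsometryEquiv.norm_map]
    exact hC y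

/-- P3 (contract theorem `relation`): `BJ_dil`, `BJ_intw` for `Dq u g q`, `Dq u g q'` (finitely valued), `BJ_dil`. -/
theorem relation (hK : KD K u) (hD : DS u m M S y s l) {g : K → (E ≃ₗᵢ[ℂ] E)} (hg : FM g)
    {q q' : ℕ} (hq : q.Prime) (hq' : q'.Prime) {τ : K → (E ≃ₗᵢ[ℂ] E)} (hτ : FM τ)
    (h : ∀ᵐ y ∂m, τ (u * y) * Dq u g q y = Dq u g q' y * τ y) (α β : ℝ) {a b : K → E}
    (ha : BMf a) (hb : BMf b) :
    BJ M u S y s l g α β (Vq q a) (Vq q b) =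
      BJ M u S y s l g (α + (Real.log q' - Real.log q)) (β + (Real.log q' - Real.log q))
        (Vq q' (fun y => τ y (a y))) (Vq q' (fun y => τ y (b y))) := by
  rw [← BJ_dil hK hD hg hq α β ha hb,
    ← BJ_intw hK hD (pb2_Dq hg q) (pb2_Dq hg q') hτ h (α - Real.log q) (β - Real.log q) ha hb,
    ← BJ_dil hK hD hg hq' (α + (Real.log q' - Real.log q)) (β + (Real.log q' - Real.log q))
      (pb2_bmf hτ ha) (pb2_bmf hτ hb)]
  have h1 : ∀ x : ℝ, x + (Real.log q' - Real.log q) - Real.log q' = x - Real.log q := by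
    intro x
    ring
  rw [h1, h1]
-- END pb2

/-- the orthonormal functions `χ e_j` -/
noncomputable def fbas (E : Type*) [NormedAddCommGroup E] [InnerProductSpace ℂ E]
    [FiniteDimensional ℂ E] (χ : PontryaginDual K) (j : Fin (Module.finrank ℂ E)) (y : K) : E :=
  ((χ y : Circle) : ℂ) • stdOrthonormalBasis ℂ E j

-- BEGIN pb3
theorem BMf_fbas (χ : PontryaginDual K) (j : Fin (Module.finrank ℂ E)) :
    BMf (fbas E χ j : K → E) := by
  have hχ : Continuous fun y : K => ((χ y : Circle) : ℂ) :=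
    continuous_subtype_val.comp (map_continuous χ)
  refine ⟨(hχ.smul continuous_const).measurable, 1, fun y => ?_⟩
  unfold fbas
  rw [norm_smul, Circle.norm_coe, one_mul, (stdOrthonormalBasis ℂ E).norm_eq_one]

open Classical in
theorem fbas_orth (χ χ' : PontryaginDual K) (j j' : Fin (Module.finrank ℂ E)) :
    ∫ y, inner ℂ (fbas E χ j y) (fbas E χ' j' y) ∂m =
      if (χ, j) = (χ', j') then 1 else 0 := by
  have h1 : ∀ y, inner ℂ (fbas E χ j y) (fbas E χ' j' y) =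
      (starRingEnd ℂ) ((χ y : Circle) : ℂ) * ((χ' y : Circle) : ℂ) *
        (if j = j' then 1 else 0) := by
    intro y
    unfold fbas
    rw [inner_smul_left, inner_smul_right,
      orthonormal_iff_ite.1 (stdOrthonormalBasis ℂ E).orthonormal j j']
    ring
  simp_rw [h1]
  rw [integral_mul_const, chr_orth]
  by_cases h2 : χ = χ'
  · by_cases h3 : j = j'
    · rw [if_pos h2, if_pos h3, if_pos (by rw [h2, h3]), mul_one]
    · rw [if_neg h3, if_neg (fun h => h3 (Prod.ext_iff.1 h).2), mul_zero]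
  · rw [if_neg h2, if_neg (fun h => h2 (Prod.ext_iff.1 h).1), zero_mul]

/-- the operator norm is at most the Hilbert-Schmidt norm -/
theorem norm_sq_le_hs {H : Type*} [NormedAddCommGroup H] [InnerProductSpace ℂ H]
    (A : E →L[ℂ] H) : ‖A‖ ^ 2 ≤ ∑ j, ‖A (stdOrthonormalBasis ℂ E j)‖ ^ 2 := by
  have h0 : 0 ≤ ∑ j, ‖A (stdOrthonormalBasis ℂ E j)‖ ^ 2 :=
    Finset.sum_nonneg fun j _ => sq_nonneg _
  have h1 : ‖A‖ ≤ Real.sqrt (∑ j, ‖A (stdOrthonormalBasis ℂ E j)‖ ^ 2) := by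
    refine A.opNorm_le_bound (Real.sqrt_nonneg _) fun v => ?_
    have h2 : A v = ∑ j, (inner ℂ (stdOrthonormalBasis ℂ E j) v) • A (stdOrthonormalBasis ℂ E j) := by
      conv_lhs => rw [← (stdOrthonormalBasis ℂ E).sum_repr' v]
      rw [map_sum]
      exact Finset.sum_congr rfl fun j _ => _root_.map_smul _ _ _
    have h3 : ‖A v‖ ≤ ∑ j, ‖inner ℂ (stdOrthonormalBasis ℂ E j) v‖ *
        ‖A (stdOrthonormalBasis ℂ E j)‖ := by
      rw [h2]
      refine (norm_sum_le _ _).trans (Finset.sum_le_sum fun j _ => ?_)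
      rw [norm_smul]
    have h4 : ∑ j, ‖inner ℂ (stdOrthonormalBasis ℂ E j) v‖ ^ 2 = ‖v‖ ^ 2 :=
      (stdOrthonormalBasis ℂ E).sum_sq_norm_inner_right v
    have h5 := Finset.sum_mul_sq_le_sq_mul_sq Finset.univ
      (fun j => ‖inner ℂ (stdOrthonormalBasis ℂ E j) v‖)
      (fun j => ‖A (stdOrthonormalBasis ℂ E j)‖)
    rw [h4] at h5
    refine h3.trans ?_
    rw [mul_comm]
    refine (Real.le_sqrt (Finset.sum_nonneg fun j _ => by positivity)
      (by positivity)).2 h5 |>.trans (le_of_eq ?_)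
    rw [Real.sqrt_mul (sq_nonneg _), Real.sqrt_sq (norm_nonneg _)]
  calc ‖A‖ ^ 2 ≤ Real.sqrt (∑ j, ‖A (stdOrthonormalBasis ℂ E j)‖ ^ 2) ^ 2 :=
        pow_le_pow_left₀ (norm_nonneg _) h1 2
    _ = _ := Real.sq_sqrt h0

theorem ker_pos {g : K → (E ≃ₗᵢ[ℂ] E)} {α β : ℝ} {Φ : K → (E →L[ℂ] Lp E 2 M)}
    (h : IsKer m M u S y s l g α β Φ) {a : K → E} (ha : BMf a)
    (hT : TJ M u S y s l g α β a ≠ 0) : 0 < ∫ y, ‖Φ y‖ ∂m := by
  have hnn : ∀ y, 0 ≤ ‖Φ y‖ := fun y => norm_nonneg (Φ y)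
  have h0 : 0 ≤ ∫ y, ‖Φ y‖ ∂m := integral_nonneg hnn
  refine lt_of_le_of_ne h0 fun h1 => hT ?_
  have hn : StronglyMeasurable fun y => ‖Φ y‖ := by
    have h2 := StronglyMeasurable.norm (f := Φ) h.sm
    exact h2
  have h2 : Integrable (fun y => ‖Φ y‖) m := by
    refine Integrable.of_bound hn.aestronglyMeasurable (Real.sqrt (β - α))
      (Filter.Eventually.of_forall fun y => ?_)
    rw [Real.norm_of_nonneg (hnn y)]
    exact h.bdd y
  have h3 := (integral_eq_zero_iff_of_nonneg hnn h2).1 h1.symm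
  rw [h.rep a ha]
  refine integral_eq_zero_of_ae ?_
  filter_upwards [h3] with y hy
  have h4 : ‖Φ y‖ = 0 := hy
  have h5 := (Φ y).le_opNorm (a y)
  rw [h4, zero_mul] at h5
  exact norm_le_zero_iff.1 h5
-- END pb3

-- BEGIN pb4
private theorem pb4_eq (hK : KD K u) (hD : DS u m M S y s l) {g : K → (E ≃ₗᵢ[ℂ] E)} (hg : FM g)
    {α β : ℝ} {Φ : K → (E →L[ℂ] Lp E 2 M)} (h : IsKer m M u S y s l g α β Φ) {q : ℕ}
    (hq : q.Prime) (χ : PontryaginDual K) (j : Fin (Module.finrank ℂ E)) :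
    ‖TJ M u S y s l (Dq u g q) (α - Real.log q) (β - Real.log q) (fbas E χ j)‖ ^ 2 =
      ‖∫ y, ((χ y : Circle) : ℂ) • Φ (y ^ q) (stdOrthonormalBasis ℂ E j) ∂m‖ ^ 2 := by
  have h1 := BJ_dil hK hD hg hq α β (BMf_fbas (E := E) χ j) (BMf_fbas (E := E) χ j)
  unfold BJ at h1
  rw [ker_Vq hK hD hg h hq.one_le (BMf_fbas (E := E) χ j), inner_self_eq_norm_sq_to_K,
    inner_self_eq_norm_sq_to_K] at h1
  have h2 : ‖TJ M u S y s l (Dq u g q) (α - Real.log q) (β - Real.log q) (fbas E χ j)‖ ^ 2 =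
      ‖∫ y, Φ (y ^ q) (fbas E χ j y) ∂m‖ ^ 2 := by exact_mod_cast h1
  rw [h2]
  congr 2
  refine integral_congr_ae (Filter.Eventually.of_forall fun y => ?_)
  show Φ (y ^ q) (((χ y : Circle) : ℂ) • stdOrthonormalBasis ℂ E j) = _
  rw [_root_.map_smul]

/-- Mass of the dilated operators. `‖TJ (Dq g q)_(J - log q) a‖ = ‖TJ_J (Vq q a)‖ = ‖∫ Φ (x^q) (a x)‖` (`BJ_dil`, `ker_Vq`); `parseval_lb`
for the functions `x ↦ Φ (x^q) e_j`; `∑_j ∫ ‖Φ (x^q) e_j‖² ≥ ∫ ‖Φ (x^q)‖² ≥ (∫ ‖Φ (x^q)‖)²`. -/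
theorem mass_lb (hK : KD K u) (hD : DS u m M S y s l) {g : K → (E ≃ₗᵢ[ℂ] E)} (hg : FM g)
    {α β : ℝ} {Φ : K → (E →L[ℂ] Lp E 2 M)} (h : IsKer m M u S y s l g α β Φ) {q : ℕ}
    (hq : q.Prime) {t : ℝ} (ht : 0 < t) (htq : t ≤ ∫ x, ‖Φ (x ^ q)‖ ∂m) :
    ∃ s₀ : Finset (PontryaginDual K), ∀ s' : Finset (PontryaginDual K), s₀ ⊆ s' →
      t ^ 2 / 2 ≤ ∑ χ ∈ s', ∑ j, ‖TJ M u S y s l (Dq u g q) (α - Real.log q) (β - Real.log q)
        (fbas E χ j)‖ ^ 2 := by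
  classical
  have hpw : Measurable fun x : K => x ^ q := (continuous_pow q).measurable
  have hΨ : StronglyMeasurable fun x : K => Φ (x ^ q) := h.sm.comp_measurable hpw
  have hb : ∀ x : K, ‖Φ (x ^ q)‖ ≤ Real.sqrt (β - α) := fun x => h.bdd _
  set e := stdOrthonormalBasis ℂ E with he
  have hF : ∀ j, StronglyMeasurable fun x : K => Φ (x ^ q) (e j) := by
    intro j
    exact (ContinuousLinearMap.apply ℂ (Lp E 2 M) (e j)).continuous.comp_stronglyMeasurable hΨ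
  have hFb : ∀ j x, ‖Φ (x ^ q) (e j)‖ ≤ Real.sqrt (β - α) := by
    intro j x
    refine ((Φ (x ^ q)).le_opNorm _).trans ?_
    rw [he, (stdOrthonormalBasis ℂ E).norm_eq_one, mul_one]
    exact hb x
  set ε : ℝ := t ^ 2 / (2 * (Module.finrank ℂ E + 1)) with hε
  have hεp : 0 < ε := by positivity
  choose s₁ hs₁ using fun j => parseval_lb (m := m) hK (hF j) (hFb j) hεp
  refine ⟨Finset.univ.biUnion s₁, fun s' hs' => ?_⟩
  have h1 : ∀ j, ∫ x, ‖Φ (x ^ q) (e j)‖ ^ 2 ∂m - ε ≤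
      ∑ χ ∈ s', ‖∫ y, ((χ y : Circle) : ℂ) • Φ (y ^ q) (e j) ∂m‖ ^ 2 := fun j =>
    hs₁ j s' ((Finset.subset_biUnion_of_mem s₁ (Finset.mem_univ j)).trans hs')
  have hn : StronglyMeasurable fun x : K => ‖Φ (x ^ q)‖ := by
    have h2 := StronglyMeasurable.norm (f := fun x : K => Φ (x ^ q)) hΨ
    exact h2
  have hnn : ∀ x : K, 0 ≤ ‖Φ (x ^ q)‖ := fun x => norm_nonneg (Φ (x ^ q))
  have hi1 : Integrable (fun x => ‖Φ (x ^ q)‖) m := by
    refine Integrable.of_bound hn.aestronglyMeasurable (Real.sqrt (β - α))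
      (Filter.Eventually.of_forall fun x => ?_)
    rw [Real.norm_of_nonneg (hnn x)]
    exact hb x
  have hi2 : Integrable (fun x => ‖Φ (x ^ q)‖ ^ 2) m := by
    refine Integrable.of_bound (hn.pow 2).aestronglyMeasurable (Real.sqrt (β - α) ^ 2)
      (Filter.Eventually.of_forall fun x => ?_)
    rw [norm_pow, Real.norm_of_nonneg (hnn x)]
    exact pow_le_pow_left₀ (hnn x) (hb x) 2
  have hi3 : ∀ j, Integrable (fun x => ‖Φ (x ^ q) (e j)‖ ^ 2) m := by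
    intro j
    refine Integrable.of_bound ((hF j).norm.pow 2).aestronglyMeasurable (Real.sqrt (β - α) ^ 2)
      (Filter.Eventually.of_forall fun x => ?_)
    rw [norm_pow, norm_norm]
    exact pow_le_pow_left₀ (norm_nonneg _) (hFb j x) 2
  have h2 : t ^ 2 ≤ ∫ x, ‖Φ (x ^ q)‖ ^ 2 ∂m := by
    have h3 : ∫ x, (2 * t * ‖Φ (x ^ q)‖ - t ^ 2) ∂m ≤ ∫ x, ‖Φ (x ^ q)‖ ^ 2 ∂m := by
      refine integral_mono ((hi1.const_mul _).sub (integrable_const _)) hi2 fun x => ?_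
      dsimp only
      nlinarith [sq_nonneg (‖Φ (x ^ q)‖ - t)]
    rw [integral_sub (hi1.const_mul _) (integrable_const _), integral_const_mul, integral_const,
      Measure.real, measure_univ, ENNReal.toReal_one, one_smul] at h3
    nlinarith
  have h4 : ∫ x, ‖Φ (x ^ q)‖ ^ 2 ∂m ≤ ∑ j, ∫ x, ‖Φ (x ^ q) (e j)‖ ^ 2 ∂m := by
    rw [← integral_finsetSum _ fun j _ => hi3 j]
    exact integral_mono hi2 (integrable_finsetSum _ fun j _ => hi3 j) fun x =>
      norm_sq_le_hs (Φ (x ^ q))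
  have h5 : ∑ j, (∫ x, ‖Φ (x ^ q) (e j)‖ ^ 2 ∂m - ε) ≤
      ∑ j, ∑ χ ∈ s', ‖∫ y, ((χ y : Circle) : ℂ) • Φ (y ^ q) (e j) ∂m‖ ^ 2 :=
    Finset.sum_le_sum fun j _ => h1 j
  rw [Finset.sum_sub_distrib, Finset.sum_const, Finset.card_univ, Fintype.card_fin,
    nsmul_eq_mul] at h5
  have h6 : (Module.finrank ℂ E : ℝ) * ε ≤ t ^ 2 / 2 := by
    rw [hε, ← mul_div_assoc, div_le_div_iff₀ (by positivity) (by norm_num)]
    nlinarith [sq_nonneg t]
  rw [Finset.sum_comm]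
  have h7 : ∀ j, ∑ χ ∈ s', ‖TJ M u S y s l (Dq u g q) (α - Real.log q) (β - Real.log q)
      (fbas E χ j)‖ ^ 2 = ∑ χ ∈ s', ‖∫ y, ((χ y : Circle) : ℂ) • Φ (y ^ q) (e j) ∂m‖ ^ 2 :=
    fun j => Finset.sum_congr rfl fun χ _ => pb4_eq hK hD hg h hq χ j
  rw [Finset.sum_congr rfl fun j _ => h7 j]
  linarith
-- END pb4

variable {Γ : Type*} [Group Γ] [Finite Γ]

-- BEGIN pb5
private theorem pb5_itc {K' Γ' Δ' : Type*} [Monoid K'] [Monoid Γ'] [Monoid Δ'] (f : Γ' →* Δ')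
    (v : K') (c : K' → Γ') (h : ℕ) (y : K') :
    itc v (fun z => f (c z)) h y = f (itc v c h y) := by
  induction h with
  | zero => exact (map_one f).symm
  | succ n ih =>
    show f (c (v ^ n * y)) * itc v (fun z => f (c z)) n y = f (c (v ^ n * y) * itc v c n y)
    rw [ih, map_mul]

private theorem pb5_fm {K' X' Y' : Type*} [MeasurableSpace K'] {f : K' → X'} (hf : FM f)
    (φ : X' → Y') : FM (fun y => φ (f y)) := by
  constructor
  · have h : Set.range (fun y => φ (f y)) = φ '' Set.range f := Set.range_comp φ f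
    rw [h]
    exact hf.1.image φ
  · intro x
    have h : (fun y => φ (f y)) ⁻¹' {x} = ⋃ z ∈ (Set.range f ∩ φ ⁻¹' {x}), f ⁻¹' {z} := by
      ext y
      simp only [Set.mem_preimage, Set.mem_iUnion, Set.mem_inter_iff, Set.mem_singleton_iff,
        exists_prop]
      constructor
      · intro hy
        exact ⟨f y, ⟨⟨y, rfl⟩, hy⟩, rfl⟩
      · rintro ⟨z, ⟨_, hz⟩, hyz⟩
        rw [hyz]
        exact hz
    rw [h]
    exact Set.Finite.measurableSet_biUnion (hf.1.subset Set.inter_subset_left)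
      (fun z _ => hf.2 z)

private theorem pb5_symm {g g' : K → (E ≃ₗᵢ[ℂ] E)} (h : Disj u m g g') : Disj u m g' g := by
  intro N hN hNb hint
  have hcs : CompleteSpace E := FiniteDimensional.complete ℂ E
  have key : ∀ᵐ y ∂m, ∀ v, ContinuousLinearMap.adjoint (N (u * y)) (g y v) =
      g' y (ContinuousLinearMap.adjoint (N y) v) := by
    filter_upwards [hint] with y hy v
    refine ext_inner_left ℂ fun w => ?_
    obtain ⟨w', rfl⟩ := (g' y).surjective w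
    rw [ContinuousLinearMap.adjoint_inner_right, hy w', LinearIsometryEquiv.inner_map_map,
      LinearIsometryEquiv.inner_map_map, ContinuousLinearMap.adjoint_inner_right]
  have hmeas : Measurable fun y => ContinuousLinearMap.adjoint (N y) :=
    (ContinuousLinearMap.adjoint (𝕜 := ℂ) (E := E) (F := E)).continuous.measurable.comp hN
  have h0 := h (fun y => ContinuousLinearMap.adjoint (N y)) hmeas ?_ key
  · filter_upwards [h0] with y hy
    have h1 := (ContinuousLinearMap.adjoint (𝕜 := ℂ) (E := E) (F := E)).map_eq_zero_iff.mp hy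
    exact h1
  · obtain ⟨C, hC⟩ := hNb
    refine ⟨C, fun y => ?_⟩
    have h1 : ‖ContinuousLinearMap.adjoint (N y)‖ = ‖N y‖ :=
      (ContinuousLinearMap.adjoint (𝕜 := ℂ) (E := E) (F := E)).norm_map (N y)
    rw [h1]
    exact hC y

/-- Among `R + 1` primes at nearly the same scale two dilated cocycles are not disjoint. PROOF: otherwise `bessel` for
the cocycles `Dq u c (p i)`, `i : Fin (R + 1)`, the functions `fbas E χ j`, `χ` in the union of the finite sets of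
`mass_lb`, and the interval `(α - λ - 1, β - λ]`; `TJ_mono` gives
`(R + 1) * finrank * t² / 2 ≤ β - α + 1`. (`Dq u (ρ ∘ c) q = ρ ∘ Dq u c q`.) -/
theorem not_all_disj (hK : KD K u) (hD : DS u m M S y s l) (ρ : Γ →* (E ≃ₗᵢ[ℂ] E)) (hρ : Ir ρ)
    {c : K → Γ} (hc : FM c) (hm : Mi u m c) {α β : ℝ} (hαβ : α ≤ β)
    {Φ : K → (E →L[ℂ] Lp E 2 M)} (h : IsKer m M u S y s l (fun y => ρ (c y)) α β Φ) (R : ℕ)
    (p : ℕ → ℕ) (hp : ∀ i ≤ R, (p i).Prime) {lam : ℝ}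
    (hl : ∀ i ≤ R, lam ≤ Real.log (p i) ∧ Real.log (p i) ≤ lam + 1) {t : ℝ} (ht : 0 < t)
    (htp : ∀ i ≤ R, t ≤ ∫ x, ‖Φ (x ^ p i)‖ ∂m)
    (hR : β - α + 1 < (R + 1) * ((Module.finrank ℂ E : ℝ) * (t ^ 2 / 2))) :
    ∃ i j, i ≤ R ∧ j ≤ R ∧ i < j ∧
      ¬ Disj u m (fun y => ρ (Dq u c (p i) y)) (fun y => ρ (Dq u c (p j) y)) := by
  classical
  by_contra hcon
  have hdisj : ∀ i j : ℕ, i ≤ R → j ≤ R → i < j →
      Disj u m (fun y => ρ (Dq u c (p i) y)) (fun y => ρ (Dq u c (p j) y)) := by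
    intro i j hi hj hij
    by_contra hc2
    exact hcon ⟨i, j, hi, hj, hij, hc2⟩
  have hdq : ∀ q : ℕ, Dq u (fun y => ρ (c y)) q = fun y => ρ (Dq u c q y) := by
    intro q
    funext y
    exact pb5_itc ρ u c q (y ^ q)
  -- the masses
  have hmass : ∀ i : Fin (R + 1), ∃ s₀ : Finset (PontryaginDual K),
      ∀ s' : Finset (PontryaginDual K), s₀ ⊆ s' →
      t ^ 2 / 2 ≤ ∑ χ ∈ s', ∑ j, ‖TJ M u S y s l (fun y => ρ (Dq u c (p i) y))
        (α - Real.log (p i)) (β - Real.log (p i)) (fbas E χ j)‖ ^ 2 := by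
    intro i
    have hi : (i : ℕ) ≤ R := Nat.lt_succ_iff.mp i.2
    have h1 := mass_lb hK hD (pb5_fm hc ρ) h (hp i hi) ht (htp i hi)
    rw [hdq (p i)] at h1
    exact h1
  choose s₀ hs₀ using hmass
  set T : Finset (PontryaginDual K) := Finset.univ.biUnion s₀ with hT
  have hsub : ∀ i, s₀ i ⊆ T := fun i => Finset.subset_biUnion_of_mem s₀ (Finset.mem_univ i)
  have hMi : ∀ i : Fin (R + 1), Mi u m (Dq u c (p i)) ∧ FM (Dq u c (p i)) := fun i =>
    Mi_Dq hK hc hm (hp i (Nat.lt_succ_iff.mp i.2)).one_lt.le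
  have hne : ∀ i j : Fin (R + 1), i ≠ j →
      Disj u m (fun y => ρ (Dq u c (p i) y)) (fun y => ρ (Dq u c (p j) y)) := by
    intro i j hij
    have hi : (i : ℕ) ≤ R := Nat.lt_succ_iff.mp i.2
    have hj : (j : ℕ) ≤ R := Nat.lt_succ_iff.mp j.2
    rcases lt_or_gt_of_ne (fun hh : (i : ℕ) = (j : ℕ) => hij (Fin.ext hh)) with hlt | hlt
    · exact hdisj i j hi hj hlt
    · exact pb5_symm (hdisj j i hj hi hlt)
  have hb := bessel hK hD ρ hρ (ι := Fin (R + 1))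
    (κ := {χ // χ ∈ T} × Fin (Module.finrank ℂ E)) (fun i => Dq u c (p i)) (fun i => (hMi i).2)
    (fun i => (hMi i).1) hne (fun _ k => fbas E (k.1 : PontryaginDual K) k.2)
    (fun _ k => BMf_fbas _ _) (fun _ k k' => by
      have h1 := fbas_orth (m := m) (E := E) (k.1 : PontryaginDual K) (k'.1 : PontryaginDual K)
        k.2 k'.2
      rw [h1]
      by_cases hk : k = k'
      · rw [if_pos hk, if_pos (by rw [hk])]
      · rw [if_neg hk, if_neg ?_]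
        intro h2
        rw [Prod.mk.injEq] at h2
        exact hk (Prod.ext (Subtype.ext h2.1) h2.2))
    (α := α - lam - 1) (β := β - lam) (by linarith)
  have hlow : ∀ i : Fin (R + 1), (Module.finrank ℂ E : ℝ) * (t ^ 2 / 2) ≤
      ∑ k : {χ // χ ∈ T} × Fin (Module.finrank ℂ E), (Module.finrank ℂ E : ℝ) *
        ‖TJ M u S y s l (fun y => ρ (Dq u c (p i) y)) (α - lam - 1) (β - lam)
          (fbas E (k.1 : PontryaginDual K) k.2)‖ ^ 2 := by
    intro i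
    have hi : (i : ℕ) ≤ R := Nat.lt_succ_iff.mp i.2
    rw [← Finset.mul_sum]
    refine mul_le_mul_of_nonneg_left ?_ (Nat.cast_nonneg _)
    rw [Fintype.sum_prod_type]
    refine (hs₀ i T (hsub i)).trans ?_
    rw [← Finset.sum_coe_sort T (fun χ => ∑ j, ‖TJ M u S y s l (fun y => ρ (Dq u c (p i) y))
        (α - Real.log (p i)) (β - Real.log (p i)) (fbas E χ j)‖ ^ 2)]
    refine Finset.sum_le_sum fun χ _ => Finset.sum_le_sum fun j _ => ?_
    refine pow_le_pow_left₀ (norm_nonneg _) ?_ 2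
    have h2 := hl i hi
    exact TJ_mono hK hD (pb5_fm (hMi i).2 ρ) (by linarith) (by linarith) (BMf_fbas _ _)
  have hsum := Finset.sum_le_sum (s := (Finset.univ : Finset (Fin (R + 1)))) fun i _ => hlow i
  rw [Finset.sum_const, Finset.card_univ, Fintype.card_fin, nsmul_eq_mul] at hsum
  push_cast at hsum
  have hfin := hsum.trans hb
  linarith

/-- disjointness is symmetric (adjoint of the intertwiner) -/
theorem Disj.symm {g g' : K → (E ≃ₗᵢ[ℂ] E)} (h : Disj u m g g') : Disj u m g' g := by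
  exact pb5_symm h
-- END pb5

-- BEGIN pb6
/-- numbers: `p i ∈ [P (1+η)^(2i), P (1+η)^(2i+1)]` -/
theorem supply_ratio {η P : ℝ} (hη : 0 < η) (hP : 0 < P) {R : ℕ} {p : ℕ → ℕ}
    (h : ∀ i ≤ R, P * (1 + η) ^ (2 * i) ≤ p i ∧ (p i : ℝ) ≤ P * (1 + η) ^ (2 * i + 1)) {i j : ℕ}
    (hij : i < j) (hj : j ≤ R) :
    (1 + η) * p i ≤ p j ∧ (p j : ℝ) ≤ (1 + η) ^ (2 * R + 1) * p i := by
  have h1 : (1 : ℝ) ≤ 1 + η := by linarith
  have hi := h i (by omega)
  have hj' := h j hj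
  constructor
  · calc (1 + η) * p i ≤ (1 + η) * (P * (1 + η) ^ (2 * i + 1)) :=
          mul_le_mul_of_nonneg_left hi.2 (by linarith)
      _ = P * (1 + η) ^ (2 * i + 2) := by ring
      _ ≤ P * (1 + η) ^ (2 * j) :=
          mul_le_mul_of_nonneg_left (pow_le_pow_right₀ h1 (by omega)) hP.le
      _ ≤ p j := hj'.1
  · have h2 : P ≤ p i := by
      refine le_trans ?_ hi.1
      have h3 := one_le_pow₀ h1 (n := 2 * i)
      nlinarith
    calc (p j : ℝ) ≤ P * (1 + η) ^ (2 * j + 1) := hj'.2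
      _ ≤ P * (1 + η) ^ (2 * R + 1) :=
          mul_le_mul_of_nonneg_left (pow_le_pow_right₀ h1 (by omega)) hP.le
      _ = (1 + η) ^ (2 * R + 1) * P := mul_comm _ _
      _ ≤ (1 + η) ^ (2 * R + 1) * p i :=
          mul_le_mul_of_nonneg_left h2 (pow_nonneg (by linarith) _)

theorem supply_log {η P : ℝ} (hη : 0 < η) (hP : 0 < P) {R : ℕ} {p : ℕ → ℕ}
    (h : ∀ i ≤ R, P * (1 + η) ^ (2 * i) ≤ p i ∧ (p i : ℝ) ≤ P * (1 + η) ^ (2 * i + 1))
    (h1 : (2 * R + 1) * Real.log (1 + η) ≤ 1) {i : ℕ} (hi : i ≤ R) :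
    Real.log P ≤ Real.log (p i) ∧ Real.log (p i) ≤ Real.log P + 1 := by
  have h0 : (1 : ℝ) ≤ 1 + η := by linarith
  have hi' := h i hi
  have h2 : P ≤ p i := by
    refine le_trans ?_ hi'.1
    have h3 := one_le_pow₀ h0 (n := 2 * i)
    nlinarith
  refine ⟨Real.log_le_log hP h2, ?_⟩
  have h4 := Real.log_le_log (lt_of_lt_of_le hP h2) hi'.2
  rw [Real.log_mul hP.ne' (by positivity), Real.log_pow] at h4
  have h5 : 0 ≤ Real.log (1 + η) := Real.log_nonneg h0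
  have h6 : ((2 * i + 1 : ℕ) : ℝ) ≤ 2 * R + 1 := by
    have : (i : ℝ) ≤ R := by exact_mod_cast hi
    push_cast
    linarith
  have h7 := mul_le_mul_of_nonneg_right h6 h5
  linarith
-- END pb6

-- BEGIN pb7
private theorem pb7_union {A B : Set ℕ} (hA : Thin A) (hB : Thin B) : Thin (A ∪ B) := by
  classical
  obtain ⟨C, hC⟩ := hA
  obtain ⟨D, hD⟩ := hB
  refine ⟨C + D, fun F hF hp => ?_⟩
  have h1 := hC (F.filter fun q => q ∈ A)
    (fun q hq => (Finset.mem_filter.1 (Finset.mem_coe.1 hq)).2)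
    (fun q hq => hp q (Finset.mem_filter.1 hq).1)
  have h2 := hD (F.filter fun q => q ∉ A)
    (fun q hq => by
      have h := Finset.mem_filter.1 (Finset.mem_coe.1 hq)
      exact (hF h.1).resolve_left h.2)
    (fun q hq => hp q (Finset.mem_filter.1 hq).1)
  rw [← Finset.sum_filter_add_sum_filter_not F (fun q => q ∈ A)]
  linarith

/-- P4 (contract theorem `pigeon`). `t₀ = ∫ ‖Φ‖ > 0` (`exists_ker`, `ker_pos`), `t = t₀ / 2`; `R` with
`β - α + 1 < (R + 1) d t² / 2` (`d ≥ 1`, since `TJ ≠ 0`); `η₀` with `(2R+1) log (1 + η₀) ≤ 1`. Given `η, B, Q, P₀`: `supply` for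
the thin set `B ∪ {q | t₀ / 2 < |∫ ‖Φ (x^q)‖ - ∫ ‖Φ‖|}` (`good`; union of two thin sets: write the bound), `R`, `P₀ + 1`; `not_all_disj`
(`Mi_Dq`), `schur`, `hG`; `supply_ratio`. -/
theorem pigeon (hK : KD K u) (hD : DS u m M S y s l) (ρ : Γ →* (E ≃ₗᵢ[ℂ] E)) (hρ : Ir ρ)
    {c : K → Γ} (hc : FM c) (hm : Mi u m c) {α β : ℝ} (hαβ : α < β) {a : K → E} (ha : BMf a)
    (hT : TJ M u S y s l (fun y => ρ (c y)) α β a ≠ 0)
    (G : Subgroup (E ≃ₗᵢ[ℂ] E))
    (hG : ∀ (c c' : K → Γ), FM c → FM c' → Mi u m c → ∀ τ : K → (E ≃ₗᵢ[ℂ] E),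
        (Measurable fun y => ((τ y : E ≃L[ℂ] E) : E →L[ℂ] E)) →
        (∀ᵐ y ∂m, τ (u * y) * ρ (c y) = ρ (c' y) * τ y) →
        ∃ τ' : K → (E ≃ₗᵢ[ℂ] E), FM τ' ∧ (∀ y, τ' y ∈ G) ∧
          ∀ᵐ y ∂m, τ' (u * y) * ρ (c y) = ρ (c' y) * τ' y) :
    ∃ (R : ℕ) (η₀ : ℝ), 0 < η₀ ∧ ∀ η : ℝ, 0 < η → η < η₀ → ∀ (B : Set ℕ), Thin B →
      ∀ Q : ℕ, 1 ≤ Q → ∀ P₀ : ℕ, ∃ q q' : ℕ, q.Prime ∧ q'.Prime ∧ q ∉ B ∧ q' ∉ B ∧
        q % Q = 1 % Q ∧ q' % Q = 1 % Q ∧ P₀ ≤ q ∧ (1 + η) * q ≤ q' ∧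
        (q' : ℝ) ≤ (1 + η) ^ (2 * R + 1) * q ∧
        ∃ τ : K → (E ≃ₗᵢ[ℂ] E), FM τ ∧ (∀ y, τ y ∈ G) ∧
          ∀ᵐ y ∂m, τ (u * y) * ρ (Dq u c q y) = ρ (Dq u c q' y) * τ y := by
  obtain ⟨Φ, hΦ⟩ := exists_ker hK hD ρ hρ hc hm hαβ.le
  have ht₀ : 0 < ∫ y, ‖Φ y‖ ∂m := ker_pos hΦ ha hT
  set t₀ : ℝ := ∫ y, ‖Φ y‖ ∂m with ht₀def
  have hd : 0 < Module.finrank ℂ E := by
    rcases Nat.eq_zero_or_pos (Module.finrank ℂ E) with h0 | h0
    · exfalso
      have hsub : Subsingleton E := Module.finrank_zero_iff.1 h0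
      exact hT (Lp.ext (Eventually.of_forall fun z => Subsingleton.elim _ _))
    · exact h0
  have hdr : (0 : ℝ) < (Module.finrank ℂ E : ℝ) := by exact_mod_cast hd
  have hx : 0 < (Module.finrank ℂ E : ℝ) * ((t₀ / 2) ^ 2 / 2) := by positivity
  obtain ⟨R, hR⟩ := exists_nat_gt ((β - α + 1) / ((Module.finrank ℂ E : ℝ) * ((t₀ / 2) ^ 2 / 2)))
  have hR' : β - α + 1 < (R + 1) * ((Module.finrank ℂ E : ℝ) * ((t₀ / 2) ^ 2 / 2)) := by
    rw [div_lt_iff₀ hx] at hR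
    nlinarith
  have h2R : (0 : ℝ) < 2 * R + 1 := by positivity
  refine ⟨R, 1 / (2 * R + 1), by positivity, fun η hη hη1 B hB Q hQ P₀ => ?_⟩
  have hlog : (2 * R + 1) * Real.log (1 + η) ≤ 1 := by
    have h1 : Real.log (1 + η) ≤ η := by
      have := Real.log_le_sub_one_of_pos (show 0 < 1 + η by linarith)
      linarith
    have h2 : (2 * R + 1) * η ≤ 1 := by
      have := (lt_div_iff₀ h2R).1 hη1
      linarith
    calc (2 * R + 1) * Real.log (1 + η) ≤ (2 * R + 1) * η :=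
          mul_le_mul_of_nonneg_left h1 h2R.le
      _ ≤ 1 := h2
  have hmem : MemLp (fun y => ‖Φ y‖) 2 m := by
    have hn : Continuous fun A : E →L[ℂ] Lp E 2 M => ‖A‖ :=
      continuous_norm (E := E →L[ℂ] Lp E 2 M)
    have hsm : AEStronglyMeasurable (fun y => ‖Φ y‖) m :=
      (hn.comp_stronglyMeasurable hΦ.sm).aestronglyMeasurable
    refine MemLp.of_bound hsm (Real.sqrt (β - α)) ?_
    refine Eventually.of_forall fun y => ?_
    have h0 : (0 : ℝ) ≤ ‖Φ y‖ := norm_nonneg (Φ y)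
    rw [Real.norm_of_nonneg h0]
    exact hΦ.bdd y
  have hB2 : Thin {q : ℕ | t₀ / 2 < |∫ y, ‖Φ (y ^ q)‖ ∂m - ∫ y, ‖Φ y‖ ∂m|} :=
    good hK hmem (half_pos ht₀)
  obtain ⟨P, p, hP, hp⟩ := supply (pb7_union hB hB2) hQ hη R (P₀ + 1)
  have hP1 : (P₀ : ℝ) + 1 ≤ P := by
    have := hP
    push_cast at this
    exact this
  have hPpos : 0 < P := by
    have : (0 : ℝ) ≤ P₀ := Nat.cast_nonneg _
    linarith
  have hsr : ∀ i ≤ R, P * (1 + η) ^ (2 * i) ≤ p i ∧ (p i : ℝ) ≤ P * (1 + η) ^ (2 * i + 1) :=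
    fun i hi => ⟨(hp i hi).2.2.2.1, (hp i hi).2.2.2.2⟩
  have htp : ∀ i ≤ R, t₀ / 2 ≤ ∫ x, ‖Φ (x ^ p i)‖ ∂m := by
    intro i hi
    have h1 : ¬ t₀ / 2 < |∫ y, ‖Φ (y ^ p i)‖ ∂m - ∫ y, ‖Φ y‖ ∂m| := fun h2 =>
      (hp i hi).2.1 (Or.inr h2)
    have h2 := abs_le.1 (not_lt.1 h1)
    have h3 := h2.1
    rw [← ht₀def] at h3
    linarith
  obtain ⟨i, j, hi, hj, hij, hnd⟩ := not_all_disj hK hD ρ hρ hc hm hαβ.le hΦ R p
    (fun i hi => (hp i hi).1) (lam := Real.log P)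
    (fun i hi => supply_log hη hPpos hsr hlog hi) (half_pos ht₀) htp hR'
  have hMi := Mi_Dq (m := m) hK hc hm (hp i hi).1.one_lt.le
  have hMj := Mi_Dq (m := m) hK hc hm (hp j hj).1.one_lt.le
  obtain ⟨τ, hτ1, hτ2⟩ := schur hK ρ hρ hMi.2 hMj.2 hMi.1 hMj.1 hnd
  obtain ⟨τ', h1, h2, h3⟩ := hG _ _ hMi.2 hMj.2 hMi.1 τ hτ1 hτ2
  have hrat := supply_ratio hη hPpos hsr hij hj
  refine ⟨p i, p j, (hp i hi).1, (hp j hj).1, fun h => (hp i hi).2.1 (Or.inl h),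
    fun h => (hp j hj).2.1 (Or.inl h), (hp i hi).2.2.1, (hp j hj).2.2.1, ?_, hrat.1, hrat.2,
    τ', h1, h2, h3⟩
  have h4 : (1 : ℝ) ≤ (1 + η) ^ (2 * i) := one_le_pow₀ (by linarith)
  have h5 : (P₀ : ℝ) ≤ p i := by
    have h6 := (hsr i hi).1
    nlinarith
  exact_mod_cast h5
-- END pb7

end main

end Pool.Agent.S7
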