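import Pool.Agent.S7.V.Defs
import Pool.Agent.S7.Kbr

/-!
# S7, block P, first part (helper36): the finite normaliser, intertwiners
-/

set_option autoImplicit false

namespace Pool.Agent.S7

open MeasureTheory Filter Topology
open scoped ENNReal

section grp

variable {E : Type*} [NormedAddCommGroup E] [InnerProductSpace ℂ E] [FiniteDimensional ℂ E]

/-- determinant of a unitary operator -/
noncomputable def dt (h : E ≃ₗᵢ[ℂ] E) : ℂ := LinearMap.det (h.toLinearEquiv : E →ₗ[ℂ] E)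

/-- scalar unitary operators -/
noncomputable def scl (E : Type*) [NormedAddCommGroup E] [InnerProductSpace ℂ E] (w : Circle) :
    E ≃ₗᵢ[ℂ] E where
  toLinearEquiv := LinearEquiv.smulOfNeZero ℂ E (w : ℂ) (Circle.coe_ne_zero w)
  norm_map' x := by
    show ‖(w : ℂ) • x‖ = ‖x‖
    rw [norm_smul, Circle.norm_coe, one_mul]

-- BEGIN pa1
theorem dt_mul (h h' : E ≃ₗᵢ[ℂ] E) : dt (h * h') = dt h * dt h' := by
  unfold dt
  rw [← LinearMap.det_comp]
  rfl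

theorem dt_one : dt (1 : E ≃ₗᵢ[ℂ] E) = 1 := by
  unfold dt
  exact LinearMap.det_id

theorem dt_pow (h : E ≃ₗᵢ[ℂ] E) (n : ℕ) : dt (h ^ n) = dt h ^ n := by
  induction n with
  | zero => rw [pow_zero, pow_zero, dt_one]
  | succ n ih => rw [pow_succ, pow_succ, dt_mul, ih]

/-- PROOF: `|det|` is bounded on the unitary operators (continuity, `Metric.closedBall 0 1` is compact in
`E →L[ℂ] E`) and multiplicative, so `|dt h|^n ≤ C` for all `n`, also for `h⁻¹`. (Or the matrix in an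
orthonormal basis is unitary.) -/
theorem norm_dt (h : E ≃ₗᵢ[ℂ] E) : ‖dt h‖ = 1 := by
  have h1 := LinearMap.normDet_eq_norm_det (h.toLinearEquiv : E →ₗ[ℂ] E)
  have h2 := h.toLinearIsometry.normDet_eq_one
  unfold dt
  rw [← h1]
  exact h2

omit [FiniteDimensional ℂ E] in
theorem scl_apply (w : Circle) (x : E) : scl E w x = (w : ℂ) • x := rfl

theorem dt_scl (w : Circle) : dt (scl E w) = (w : ℂ) ^ Module.finrank ℂ E := by
  have h : (((scl E w).toLinearEquiv : E →ₗ[ℂ] E)) = (w : ℂ) • LinearMap.id := by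
    ext x
    rfl
  unfold dt
  rw [h, LinearMap.det_smul, LinearMap.det_id, mul_one]

omit [FiniteDimensional ℂ E] in
theorem scl_comm (w : Circle) (h : E ≃ₗᵢ[ℂ] E) : scl E w * h = h * scl E w := by
  ext x
  show (w : ℂ) • h x = h ((w : ℂ) • x)
  rw [map_smul]

/-- `w ^ d * dt t = 1` is solvable (`d ≥ 1`, `‖dt t‖ = 1`) -/
theorem exists_scl [Nontrivial E] (t : E ≃ₗᵢ[ℂ] E) : ∃ w : Circle, dt (scl E w * t) = 1 := by
  have hd : Module.finrank ℂ E ≠ 0 := Module.finrank_pos.ne'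
  have ht : dt t ≠ 0 := by
    intro h0
    have := norm_dt t
    rw [h0, norm_zero] at this
    exact zero_ne_one this
  obtain ⟨z, hz⟩ := IsAlgClosed.exists_pow_nat_eq (dt t)⁻¹ (Nat.pos_of_ne_zero hd)
  have hz1 : ‖z‖ = 1 := by
    have h1 : ‖z‖ ^ Module.finrank ℂ E = 1 := by
      rw [← norm_pow, hz, norm_inv, norm_dt, inv_one]
    exact (pow_eq_one_iff_of_nonneg (norm_nonneg z) hd).1 h1
  refine ⟨⟨z, mem_sphere_zero_iff_norm.2 hz1⟩, ?_⟩
  rw [dt_mul, dt_scl]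
  show z ^ Module.finrank ℂ E * dt t = 1
  rw [hz, inv_mul_cancel₀ ht]
-- END pa1

variable {Γ : Type*} [Group Γ] [Finite Γ]

-- BEGIN pa2
/-- the group `Gh` of P1: the normaliser of `ρ(Γ)` with `det ^ |Γ| = 1` -/
noncomputable def Ghat (ρ : Γ →* (E ≃ₗᵢ[ℂ] E)) : Subgroup (E ≃ₗᵢ[ℂ] E) where
  carrier := {h | h ∈ Subgroup.normalizer (ρ.range : Set (E ≃ₗᵢ[ℂ] E)) ∧ dt h ^ Nat.card Γ = 1}
  one_mem' := ⟨Subgroup.one_mem _, by rw [dt_one, one_pow]⟩
  mul_mem' := by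
    rintro a b ⟨ha, ha'⟩ ⟨hb, hb'⟩
    exact ⟨Subgroup.mul_mem _ ha hb, by rw [dt_mul, mul_pow, ha', hb', one_mul]⟩
  inv_mem' := by
    rintro a ⟨ha, ha'⟩
    refine ⟨Subgroup.inv_mem _ ha, ?_⟩
    have h1 : dt a⁻¹ * dt a = 1 := by rw [← dt_mul, inv_mul_cancel, dt_one]
    have h2 : dt a⁻¹ ^ Nat.card Γ * dt a ^ Nat.card Γ = 1 := by rw [← mul_pow, h1, one_pow]
    rwa [ha', mul_one] at h2

theorem rho_mem_Ghat (ρ : Γ →* (E ≃ₗᵢ[ℂ] E)) (g : Γ) : ρ g ∈ Ghat ρ := by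
  refine ⟨Subgroup.le_normalizer ⟨g, rfl⟩, ?_⟩
  rw [← dt_pow, ← _root_.map_pow, pow_card_eq_one', map_one, dt_one]

/-- one inclusion suffices, `ρ(Γ)` is finite -/
theorem mem_Ghat {ρ : Γ →* (E ≃ₗᵢ[ℂ] E)} {h : E ≃ₗᵢ[ℂ] E}
    (h1 : ∀ g, ∃ g', h * ρ g * h⁻¹ = ρ g') (h2 : dt h ^ Nat.card Γ = 1) : h ∈ Ghat ρ := by
  have hf : Finite (ρ.range : Set (E ≃ₗᵢ[ℂ] E)) := (Set.finite_range ρ).to_subtype
  refine ⟨Subgroup.mem_normalizer_fintype ?_, h2⟩
  rintro _ ⟨g, rfl⟩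
  obtain ⟨g', hg'⟩ := h1 g
  exact ⟨g', hg'.symm⟩
-- END pa2

-- BEGIN pa3
/-- P1. PROOF: conjugation `Ghat ρ → (ρ.range → ρ.range)` has finite image; if two elements have the same image their
quotient commutes with `ρ(Γ)`, so it is a scalar `t` (`hρ`), `|t| = 1`, with `t ^ (d |Γ|) = 1` (`d ≥ 1`): finitely
many. -/
theorem Ghat_finite [Nontrivial E] {ρ : Γ →* (E ≃ₗᵢ[ℂ] E)} (hρ : Ir ρ) : Finite (Ghat ρ) := by
  have hf : Finite ρ.range := (Set.finite_range ρ).to_subtype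
  have hN : 0 < Module.finrank ℂ E * Nat.card Γ :=
    Nat.mul_pos Module.finrank_pos Nat.card_pos
  have hW : {w : Circle | w ^ (Module.finrank ℂ E * Nat.card Γ) = 1}.Finite := by
    have h1 : {z : ℂ | z ^ (Module.finrank ℂ E * Nat.card Γ) = 1}.Finite := by
      refine (Polynomial.nthRoots (Module.finrank ℂ E * Nat.card Γ) (1 : ℂ)).toFinset.finite_toSet.subset ?_
      intro z hz
      have hz' : z ^ (Module.finrank ℂ E * Nat.card Γ) = 1 := hz
      rw [Finset.mem_coe, Multiset.mem_toFinset, Polynomial.mem_nthRoots hN]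
      exact hz'
    refine (h1.preimage (f := fun w : Circle => (w : ℂ)) (Circle.coe_injective.injOn)).subset ?_
    intro w hw
    have hw' : w ^ (Module.finrank ℂ E * Nat.card Γ) = 1 := hw
    show (w : ℂ) ^ (Module.finrank ℂ E * Nat.card Γ) = 1
    rw [← Circle.coe_pow, hw', Circle.coe_one]
  have hm : ∀ (h : Ghat ρ) (g : Γ), h.1 * ρ g * h.1⁻¹ ∈ ρ.range := by
    intro h g
    have h1 : h.1 ∈ Subgroup.normalizer (ρ.range : Set (E ≃ₗᵢ[ℂ] E)) := h.2.1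
    exact (Subgroup.mem_normalizer_iff.mp h1 (ρ g)).mp ⟨g, rfl⟩
  let F : Ghat ρ → (Γ → ρ.range) := fun h g => ⟨h.1 * ρ g * h.1⁻¹, hm h g⟩
  have hfib : ∀ b ∈ (Set.univ : Set (Γ → ρ.range)), (F ⁻¹' {b}).Finite := by
    intro b _
    by_cases hne : (F ⁻¹' {b}).Nonempty
    · obtain ⟨h₀, hh₀⟩ := hne
      refine Set.Finite.of_finite_image (f := Subtype.val) ?_ Subtype.val_injective.injOn
      refine (hW.image (fun w => h₀.1 * scl E w)).subset ?_
      rintro _ ⟨h', hh', rfl⟩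
      have e1 : F h' = F h₀ := (show F h' = b from hh').trans (show F h₀ = b from hh₀).symm
      have e2 : ∀ g, h'.1 * ρ g * h'.1⁻¹ = h₀.1 * ρ g * h₀.1⁻¹ := fun g =>
        congrArg Subtype.val (congrFun e1 g)
      have e3 : ∀ g, h₀.1⁻¹ * h'.1 * ρ g = ρ g * (h₀.1⁻¹ * h'.1) := by
        intro g
        have h5 : h'.1 * ρ g = h₀.1 * ρ g * h₀.1⁻¹ * h'.1 := by
          rw [← e2 g, inv_mul_cancel_right]
        rw [mul_assoc, h5, ← mul_assoc, ← mul_assoc, ← mul_assoc, inv_mul_cancel, one_mul,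
          mul_assoc]
      obtain ⟨t, ht⟩ := hρ (opU (h₀.1⁻¹ * h'.1)) (fun g v => by
        have h5 : (h₀.1⁻¹ * h'.1 * ρ g) v = (ρ g * (h₀.1⁻¹ * h'.1)) v := by rw [e3 g]
        exact h5)
      have ht' : ∀ v, (h₀.1⁻¹ * h'.1) v = t • v := ht
      have hn : ‖t‖ = 1 := by
        obtain ⟨v, hv⟩ := exists_ne (0 : E)
        have h6 : ‖(h₀.1⁻¹ * h'.1) v‖ = ‖v‖ := LinearIsometryEquiv.norm_map _ _
        rw [ht', norm_smul] at h6
        have h7 : ‖v‖ ≠ 0 := norm_ne_zero_iff.mpr hv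
        exact mul_right_cancel₀ h7 (h6.trans (one_mul _).symm)
      let w : Circle := ⟨t, mem_sphere_zero_iff_norm.mpr hn⟩
      have hw : h₀.1⁻¹ * h'.1 = scl E w := by
        ext v
        rw [ht', scl_apply]
      refine ⟨w, ?_, ?_⟩
      · have h8 : dt (h₀.1⁻¹ * h'.1) ^ Nat.card Γ = 1 :=
          ((Ghat ρ).mul_mem ((Ghat ρ).inv_mem h₀.2) h'.2).2
        rw [hw, dt_scl, ← pow_mul] at h8
        show w ^ (Module.finrank ℂ E * Nat.card Γ) = 1
        apply Circle.coe_injective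
        rw [Circle.coe_pow, h8, Circle.coe_one]
      · show h₀.1 * scl E w = h'.1
        rw [← hw, mul_inv_cancel_left]
    · rw [Set.not_nonempty_iff_eq_empty.mp hne]
      exact Set.finite_empty
  have hall := Set.Finite.preimage' (Set.finite_univ) hfib
  rw [Set.preimage_univ] at hall
  exact Set.finite_univ_iff.mp hall
-- END pa3

end grp

section main

variable {K : Type*} [CommGroup K] [TopologicalSpace K] [IsTopologicalGroup K] [CompactSpace K]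
  [T2Space K] [SecondCountableTopology K] [MeasurableSpace K] [BorelSpace K]
  {u : K} {m : Measure K} [IsProbabilityMeasure m] [m.IsHaarMeasure]
  {E : Type*} [NormedAddCommGroup E] [InnerProductSpace ℂ E] [FiniteDimensional ℂ E]
  [MeasurableSpace E] [BorelSpace E]
  {Γ : Type*} [Group Γ] [Finite Γ]

-- BEGIN pa4
omit [FiniteDimensional ℂ E] [MeasurableSpace E] [BorelSpace E] in
private theorem pa4_mul (a b : E ≃ₗᵢ[ℂ] E) : opU (a * b) = opU a * opU b := by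
  ext x
  rfl

omit [FiniteDimensional ℂ E] [MeasurableSpace E] [BorelSpace E] in
private theorem pa4_inj {a b : E ≃ₗᵢ[ℂ] E} (h : opU a = opU b) : a = b := by
  ext x
  have h1 := congrArg (fun f : E →L[ℂ] E => f x) h
  exact h1

/-- distance of `v` to the double coset of `t` -/
private noncomputable def pa4_D (ρ : Γ →* (E ≃ₗᵢ[ℂ] E)) (t v : E →L[ℂ] E) : ℝ :=
  ⨅ p : Γ × Γ, ‖v - opU (ρ p.1) * t * opU (ρ p.2)‖

omit [FiniteDimensional ℂ E] [MeasurableSpace E] [BorelSpace E] in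
private theorem pa4_D_le (ρ : Γ →* (E ≃ₗᵢ[ℂ] E)) (t v : E →L[ℂ] E) (p : Γ × Γ) :
    pa4_D ρ t v ≤ ‖v - opU (ρ p.1) * t * opU (ρ p.2)‖ :=
  ciInf_le (Set.finite_range _).bddBelow p

omit [FiniteDimensional ℂ E] [MeasurableSpace E] [BorelSpace E] in
private theorem pa4_D_eq (ρ : Γ →* (E ≃ₗᵢ[ℂ] E)) (t v : E →L[ℂ] E) :
    ∃ p : Γ × Γ, ‖v - opU (ρ p.1) * t * opU (ρ p.2)‖ = pa4_D ρ t v :=
  exists_eq_ciInf_of_finite

omit [FiniteDimensional ℂ E] [MeasurableSpace E] [BorelSpace E] [Finite Γ] in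
private theorem pa4_D_inv (ρ : Γ →* (E ≃ₗᵢ[ℂ] E)) {s t : E ≃ₗᵢ[ℂ] E} {a b : Γ}
    (h : s * ρ a = ρ b * t) (v : E →L[ℂ] E) : pa4_D ρ (opU s) v = pa4_D ρ (opU t) v := by
  have hs : s = ρ b * t * ρ a⁻¹ := by
    rw [map_inv, ← h, mul_inv_cancel_right]
  unfold pa4_D
  refine Equiv.iInf_congr ((Equiv.mulRight b).prodCongr (Equiv.mulLeft a⁻¹)) fun p => ?_
  show ‖v - opU (ρ (p.1 * b)) * opU t * opU (ρ (a⁻¹ * p.2))‖ =
    ‖v - opU (ρ p.1) * opU s * opU (ρ p.2)‖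
  rw [hs, map_mul, map_mul, pa4_mul, pa4_mul, pa4_mul, pa4_mul]
  simp only [mul_assoc]

/-- P2, first step: the double coset `ρ(Γ) τ(x) ρ(Γ)` does not depend on `x`. PROOF: `V n` a dense sequence in
`E →L[ℂ] E`, `F x n = min_(g, g') ‖V n - ρ g τ(x) ρ g'‖` (a measurable function of `x`), `F (u x) = F x` a.e.,
`inv_const` for `F : K → (ℕ → ℝ)`; take `x₀` generic, `t₀ = τ x₀`. For a.e. `x` the two functions
`V ↦ min ‖V - ρ g τ(x) ρ g'‖`, `V ↦ min ‖V - ρ g t₀ ρ g'‖` agree on a dense set, so everywhere; `V = t₀`. -/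
theorem coset_const (hK : KD K u) (ρ : Γ →* (E ≃ₗᵢ[ℂ] E)) {c c' : K → Γ}
    {τ : K → (E ≃ₗᵢ[ℂ] E)} (hτ : Measurable fun y => opU (τ y))
    (h : ∀ᵐ y ∂m, τ (u * y) * ρ (c y) = ρ (c' y) * τ y) :
    ∃ t₀ : E ≃ₗᵢ[ℂ] E, ∀ᵐ x ∂m, ∃ g g' : Γ, t₀ = ρ g * τ x * ρ g' := by
  have : ProperSpace (E →L[ℂ] E) := FiniteDimensional.proper ℂ (E →L[ℂ] E)
  have : SecondCountableTopology (E →L[ℂ] E) := inferInstance
  let W : ℕ → (E →L[ℂ] E) := TopologicalSpace.denseSeq (E →L[ℂ] E)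
  have hW : DenseRange W := TopologicalSpace.denseRange_denseSeq (E →L[ℂ] E)
  let F : K → ℕ → ℝ := fun y n => pa4_D ρ (opU (τ y)) (W n)
  have hF : Measurable F := by
    refine measurable_pi_lambda _ fun n => ?_
    show Measurable fun y => pa4_D ρ (opU (τ y)) (W n)
    unfold pa4_D
    refine Measurable.iInf fun p => ?_
    have h1 : Continuous fun t : E →L[ℂ] E => ‖W n - opU (ρ p.1) * t * opU (ρ p.2)‖ :=
      (continuous_const.sub ((continuous_const.mul continuous_id).mul continuous_const)).norm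
    exact h1.measurable.comp hτ
  have hinv : ∀ᵐ y ∂m, F (u * y) = F y := by
    filter_upwards [h] with y hy
    funext n
    exact pa4_D_inv ρ hy (W n)
  obtain ⟨v, hv⟩ := inv_const (m := m) hK hF hinv
  obtain ⟨x₀, hx₀⟩ := hv.exists
  refine ⟨τ x₀, ?_⟩
  filter_upwards [hv] with x hx
  have hFx : ∀ n, pa4_D ρ (opU (τ x)) (W n) = pa4_D ρ (opU (τ x₀)) (W n) := fun n => by
    have h1 : F x = F x₀ := by rw [hx, hx₀]
    exact congrFun h1 n
  obtain ⟨p, hp⟩ := pa4_D_eq ρ (opU (τ x)) (opU (τ x₀))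
  have h0 : ‖opU (τ x₀) - opU (ρ p.1) * opU (τ x) * opU (ρ p.2)‖ ≤ 0 := by
    rw [hp]
    refine le_of_forall_pos_le_add fun δ hδ => ?_
    rw [zero_add]
    obtain ⟨n, hn⟩ := hW.exists_dist_lt (opU (τ x₀)) (half_pos hδ)
    rw [dist_eq_norm] at hn
    obtain ⟨q, hq⟩ := pa4_D_eq ρ (opU (τ x)) (W n)
    have h2 : pa4_D ρ (opU (τ x₀)) (W n) ≤ ‖W n - opU (τ x₀)‖ := by
      have h3 := pa4_D_le ρ (opU (τ x₀)) (W n) (1, 1)
      have h4 : opU (ρ 1) = (1 : E →L[ℂ] E) := by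
        rw [map_one]
        rfl
      rw [h4, one_mul, mul_one] at h3
      exact h3
    have h5 := pa4_D_le ρ (opU (τ x)) (opU (τ x₀)) q
    have h6 : ‖opU (τ x₀) - opU (ρ q.1) * opU (τ x) * opU (ρ q.2)‖ ≤
        ‖opU (τ x₀) - W n‖ + ‖W n - opU (ρ q.1) * opU (τ x) * opU (ρ q.2)‖ :=
      norm_sub_le_norm_sub_add_norm_sub _ _ _
    rw [hq, hFx n] at h6
    rw [norm_sub_rev] at h2
    linarith
  have h7 : opU (τ x₀) = opU (ρ p.1) * opU (τ x) * opU (ρ p.2) :=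
    sub_eq_zero.mp (norm_le_zero_iff.mp h0)
  refine ⟨p.1, p.2, pa4_inj ?_⟩
  rw [pa4_mul, pa4_mul]
  exact h7
-- END pa4

-- BEGIN pa5
omit [MeasurableSpace E] [BorelSpace E] in
/-- preimages of points -/
theorem meas_eq {τ : K → (E ≃ₗᵢ[ℂ] E)} (hτ : Measurable fun y => opU (τ y))
    (h : E ≃ₗᵢ[ℂ] E) : MeasurableSet {y | τ y = h} := by
  have h1 : {y | τ y = h} = (fun y => opU (τ y)) ⁻¹' {opU h} := by
    ext y
    rw [Set.mem_preimage, Set.mem_singleton_iff]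
    constructor
    · intro h2
      rw [h2]
    · intro h2
      refine LinearIsometryEquiv.ext fun v => ?_
      exact congrArg (fun f : E →L[ℂ] E => f v) h2
  rw [h1]
  exact hτ (measurableSet_singleton _)

/-- P2, second step. `A x = {g | ∃ g', τ x * ρ g = ρ g' * t₀}`; `A (u x) = c x A x` a.e., not empty a.e., so `A x = Γ` a.e.
by `hm`. -/
theorem mem_coset {ρ : Γ →* (E ≃ₗᵢ[ℂ] E)} {c c' : K → Γ} (hm : Mi u m c)
    {τ : K → (E ≃ₗᵢ[ℂ] E)} (hτ : Measurable fun y => opU (τ y))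
    (h : ∀ᵐ y ∂m, τ (u * y) * ρ (c y) = ρ (c' y) * τ y) {t₀ : E ≃ₗᵢ[ℂ] E}
    (ht : ∀ᵐ x ∂m, ∃ g g' : Γ, t₀ = ρ g * τ x * ρ g') :
    ∀ᵐ x ∂m, ∀ g : Γ, ∃ g' : Γ, τ x * ρ g = ρ g' * t₀ := by
  have hA := hm (fun x => {g : Γ | ∃ g' : Γ, τ x * ρ g = ρ g' * t₀}) (fun g => by
    have h1 : {x : K | g ∈ {g : Γ | ∃ g' : Γ, τ x * ρ g = ρ g' * t₀}} =
        ⋃ g' : Γ, {x | τ x = ρ g' * t₀ * (ρ g)⁻¹} := by
      ext x
      rw [Set.mem_iUnion]
      exact exists_congr fun g' => eq_mul_inv_iff_mul_eq.symm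
    rw [h1]
    exact MeasurableSet.iUnion fun g' => meas_eq hτ _) (by
    filter_upwards [h] with x hx
    have h2 : τ (u * x) = ρ (c' x) * τ x * (ρ (c x))⁻¹ := eq_mul_inv_of_mul_eq hx
    ext g
    constructor
    · rintro ⟨g', hg'⟩
      refine ⟨(c x)⁻¹ * g, ⟨(c' x)⁻¹ * g', ?_⟩, mul_inv_cancel_left _ _⟩
      rw [h2] at hg'
      rw [map_mul, map_mul, map_inv, map_inv]
      calc τ x * ((ρ (c x))⁻¹ * ρ g) =
          (ρ (c' x))⁻¹ * (ρ (c' x) * τ x * (ρ (c x))⁻¹ * ρ g) := by group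
        _ = (ρ (c' x))⁻¹ * ρ g' * t₀ := by rw [hg', mul_assoc]
    · rintro ⟨k, ⟨g', hg'⟩, rfl⟩
      refine ⟨c' x * g', ?_⟩
      change τ (u * x) * ρ (c x * k) = _
      rw [h2, map_mul, map_mul]
      calc ρ (c' x) * τ x * (ρ (c x))⁻¹ * (ρ (c x) * ρ k) = ρ (c' x) * (τ x * ρ k) := by group
        _ = ρ (c' x) * ρ g' * t₀ := by rw [hg', mul_assoc])
  rcases hA with hA | hA
  · exfalso
    have h3 : ∀ᵐ x ∂m, False := by
      filter_upwards [hA, ht] with x hx hx'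
      obtain ⟨g, g', hg⟩ := hx'
      have h4 : g' ∈ {g : Γ | ∃ g' : Γ, τ x * ρ g = ρ g' * t₀} := by
        refine ⟨g⁻¹, ?_⟩
        rw [hg, map_inv]
        group
      rw [hx] at h4
      exact h4
    obtain ⟨_, hF⟩ := h3.exists
    exact hF
  · filter_upwards [hA] with x hx g
    have h4 : g ∈ {g : Γ | ∃ g' : Γ, τ x * ρ g = ρ g' * t₀} := by
      rw [hx]
      trivial
    exact h4
-- END pa5

-- BEGIN pa6
/-- P1, P2 (contract theorem `exists_Gh`). `G = Ghat ρ`; `w` from `exists_scl t₀`; `τ' x = scl w * τ x` on the good set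
of `mem_coset`, `1` elsewhere. On the good set `τ x = ρ g' * t₀`, so `τ x ρ g (τ x)⁻¹ ∈ ρ(Γ)` and
`dt (scl w * τ x) = dt (ρ g')`, a `|Γ|`-th root of unity. Values in a finite set. -/
theorem exists_Gh (hK : KD K u) (ρ : Γ →* (E ≃ₗᵢ[ℂ] E)) (hρ : Ir ρ) [Nontrivial E] :
    ∃ G : Subgroup (E ≃ₗᵢ[ℂ] E), Finite G ∧ (∀ g, ρ g ∈ G) ∧
      ∀ (c c' : K → Γ), FM c → FM c' → Mi u m c → ∀ τ : K → (E ≃ₗᵢ[ℂ] E),
        (Measurable fun y => ((τ y : E ≃L[ℂ] E) : E →L[ℂ] E)) →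
        (∀ᵐ y ∂m, τ (u * y) * ρ (c y) = ρ (c' y) * τ y) →
        ∃ τ' : K → (E ≃ₗᵢ[ℂ] E), FM τ' ∧ (∀ y, τ' y ∈ G) ∧
          ∀ᵐ y ∂m, τ' (u * y) * ρ (c y) = ρ (c' y) * τ' y := by
  classical
  refine ⟨Ghat ρ, Ghat_finite hρ, rho_mem_Ghat ρ, ?_⟩
  intro c c' _ _ hm τ hτ h
  obtain ⟨t₀, ht⟩ := coset_const hK ρ hτ h
  have hmem := mem_coset hm hτ h ht
  obtain ⟨w, hw⟩ := exists_scl t₀
  have hSm : MeasurableSet {x : K | ∀ g : Γ, ∃ g' : Γ, τ x * ρ g = ρ g' * t₀} := by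
    have h1 : {x : K | ∀ g : Γ, ∃ g' : Γ, τ x * ρ g = ρ g' * t₀} =
        ⋂ g : Γ, ⋃ g' : Γ, {x | τ x = ρ g' * t₀ * (ρ g)⁻¹} := by
      ext x
      rw [Set.mem_iInter]
      refine forall_congr' fun g => ?_
      rw [Set.mem_iUnion]
      exact exists_congr fun g' => eq_mul_inv_iff_mul_eq.symm
    rw [h1]
    exact MeasurableSet.iInter fun g => MeasurableSet.iUnion fun g' => meas_eq hτ _
  set S : Set K := {x : K | ∀ g : Γ, ∃ g' : Γ, τ x * ρ g = ρ g' * t₀} with hS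
  have hval : ∀ x ∈ S, ∃ g : Γ, τ x = ρ g * t₀ := by
    intro x hx
    obtain ⟨g, hg⟩ := hx 1
    exact ⟨g, by rw [← hg, map_one, mul_one]⟩
  have hcd : ∀ g : Γ, dt (ρ g) ^ Nat.card Γ = 1 := by
    intro g
    rw [← dt_pow, ← MonoidHom.map_pow, pow_card_eq_one', map_one, dt_one]
  refine ⟨fun x => if x ∈ S then scl E w * τ x else 1, ⟨?_, ?_⟩, ?_, ?_⟩
  · refine Set.Finite.subset (((Set.finite_range fun g : Γ => scl E w * (ρ g * t₀))).union
      (Set.finite_singleton 1)) ?_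
    rintro _ ⟨x, rfl⟩
    by_cases hx : x ∈ S
    · left
      obtain ⟨g, hg⟩ := hval x hx
      refine ⟨g, ?_⟩
      change scl E w * (ρ g * t₀) = if x ∈ S then scl E w * τ x else 1
      rw [if_pos hx, hg]
    · right
      change (if x ∈ S then scl E w * τ x else 1) = 1
      rw [if_neg hx]
  · intro k
    have h1 : (fun x => if x ∈ S then scl E w * τ x else 1) ⁻¹' {k} =
        (S ∩ {x | τ x = (scl E w)⁻¹ * k}) ∪ (Sᶜ ∩ {_x | (1 : E ≃ₗᵢ[ℂ] E) = k}) := by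
      ext x
      rw [Set.mem_preimage, Set.mem_singleton_iff]
      by_cases hx : x ∈ S
      · rw [if_pos hx]
        constructor
        · intro h2
          left
          exact ⟨hx, eq_inv_mul_of_mul_eq h2⟩
        · rintro (⟨-, h2⟩ | ⟨h2, -⟩)
          · exact mul_eq_of_eq_inv_mul h2
          · exact absurd hx h2
      · rw [if_neg hx]
        constructor
        · intro h2
          right
          exact ⟨hx, h2⟩
        · rintro (⟨h2, -⟩ | ⟨-, h2⟩)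
          · exact absurd h2 hx
          · exact h2
    rw [h1]
    exact (hSm.inter (meas_eq hτ _)).union (hSm.compl.inter (MeasurableSet.const _))
  · intro x
    change (if x ∈ S then scl E w * τ x else 1) ∈ Ghat ρ
    by_cases hx : x ∈ S
    · rw [if_pos hx]
      obtain ⟨g₂, hg₂⟩ := hval x hx
      refine mem_Ghat ?_ ?_
      · intro g
        obtain ⟨g₁, hg₁⟩ := hx g
        refine ⟨g₁ * g₂⁻¹, ?_⟩
        have e1 : scl E w * τ x * ρ g * (scl E w * τ x)⁻¹ = τ x * ρ g * (τ x)⁻¹ := by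
          rw [scl_comm]
          have e2 : scl E w * ρ g = ρ g * scl E w := scl_comm w (ρ g)
          calc τ x * scl E w * ρ g * (τ x * scl E w)⁻¹ =
              τ x * (scl E w * ρ g) * (scl E w)⁻¹ * (τ x)⁻¹ := by group
            _ = τ x * (ρ g * scl E w) * (scl E w)⁻¹ * (τ x)⁻¹ := by rw [e2]
            _ = τ x * ρ g * (τ x)⁻¹ := by group
        rw [e1, hg₁, hg₂, map_mul, map_inv]
        group
      · rw [hg₂]
        have e3 : scl E w * (ρ g₂ * t₀) = ρ g₂ * (scl E w * t₀) := by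
          rw [← mul_assoc, scl_comm, mul_assoc]
        rw [e3, dt_mul, hw, mul_one]
        exact hcd g₂
    · rw [if_neg hx]
      exact Subgroup.one_mem _
  · have hu : ∀ᵐ y ∂m, ∀ g : Γ, ∃ g' : Γ, τ (u * y) * ρ g = ρ g' * t₀ :=
      (measurePreserving_mul_left m u).quasiMeasurePreserving.ae hmem
    filter_upwards [h, hmem, hu] with y hy h1 h2
    have h1' : y ∈ S := h1
    have h2' : u * y ∈ S := h2
    change (if u * y ∈ S then scl E w * τ (u * y) else 1) * ρ (c y) =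
      ρ (c' y) * (if y ∈ S then scl E w * τ y else 1)
    rw [if_pos h1', if_pos h2', mul_assoc, hy, ← mul_assoc, scl_comm, mul_assoc]
-- END pa6

end main

end Pool.Agent.S7
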